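import Pool.Agent.Q198.CI.T4

/-! # Patterns in short intervals, model with independence of order `2k`: the grid -/

set_option autoImplicit false

namespace Q167.CT

open Finset MeasureTheory Filter Topology Asymptotics Q198.CI

/-- the grid points -/
noncomputable def gp (D : ℝ) (n : ℕ) : ℕ := ⌊(n : ℝ) ^ D⌋₊

lemma gp_le (D : ℝ) (n : ℕ) : (gp D n : ℝ) ≤ (n : ℝ) ^ D :=
  Nat.floor_le (Real.rpow_nonneg (Nat.cast_nonneg _) _)

lemma lt_gp (D : ℝ) (n : ℕ) : (n : ℝ) ^ D < gp D n + 1 := Nat.lt_floor_add_one _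

lemma gp_mono {D : ℝ} (hD : 0 < D) : Monotone (gp D) := by
  intro m n h
  exact Nat.floor_le_floor (Real.rpow_le_rpow (Nat.cast_nonneg _) (by exact_mod_cast h) hD.le)

lemma gp_atTop {D : ℝ} (hD : 0 < D) : Tendsto (gp D) atTop atTop :=
  tendsto_nat_floor_atTop.comp ((tendsto_rpow_atTop hD).comp tendsto_natCast_atTop_atTop)

lemma step_lower {D : ℝ} (hD : 1 ≤ D) {n : ℕ} (hn : 0 < n) :
    (n : ℝ) ^ D + D * (n : ℝ) ^ (D - 1) ≤ ((n : ℝ) + 1) ^ D := by
  have hn0 : (0:ℝ) < n := by exact_mod_cast hn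
  have h1 := one_add_mul_self_le_rpow_one_add (s := 1 / (n : ℝ)) (by
    have : 0 < 1 / (n : ℝ) := by positivity
    linarith) hD
  have h2 : ((n : ℝ) + 1) ^ D = (n : ℝ) ^ D * (1 + 1 / (n : ℝ)) ^ D := by
    rw [← Real.mul_rpow hn0.le (by positivity)]
    congr 1
    field_simp
  have h3 : (n : ℝ) ^ D = (n : ℝ) ^ (D - 1) * n := by
    rw [← Real.rpow_add_one hn0.ne']
    congr 1
    ring
  rw [h2]
  calc (n : ℝ) ^ D + D * (n : ℝ) ^ (D - 1) = (n : ℝ) ^ D * (1 + D * (1 / (n : ℝ))) := by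
        rw [h3]
        field_simp
    _ ≤ _ := mul_le_mul_of_nonneg_left h1 (by positivity)

lemma step_upper {D : ℝ} (hD : 1 ≤ D) (n : ℕ) :
    ((n : ℝ) + 1) ^ D ≤ (n : ℝ) ^ D + D * ((n : ℝ) + 1) ^ (D - 1) := by
  have hn0 : (0:ℝ) < (n : ℝ) + 1 := by positivity
  have h1 := one_add_mul_self_le_rpow_one_add (s := - (1 / ((n : ℝ) + 1))) (by
    rw [neg_le_neg_iff, div_le_one hn0]
    linarith [(Nat.cast_nonneg n : (0:ℝ) ≤ n)]) hD
  have h0 : (1 : ℝ) + -(1 / ((n : ℝ) + 1)) = n / (n + 1) := by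
    field_simp
    ring
  have h2 : (n : ℝ) ^ D = ((n : ℝ) + 1) ^ D * ((n : ℝ) / (n + 1)) ^ D := by
    rw [← Real.mul_rpow hn0.le (by positivity)]
    congr 1
    field_simp
  have h3 : ((n : ℝ) + 1) ^ D = ((n : ℝ) + 1) ^ (D - 1) * ((n : ℝ) + 1) := by
    rw [← Real.rpow_add_one hn0.ne']
    congr 1
    ring
  rw [h0] at h1
  have h4 := mul_le_mul_of_nonneg_left h1 (show (0:ℝ) ≤ ((n : ℝ) + 1) ^ D by positivity)
  rw [← h2] at h4
  have h5 : ((n : ℝ) + 1) ^ D * (1 + D * -(1 / ((n : ℝ) + 1))) =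
      ((n : ℝ) + 1) ^ D - D * ((n : ℝ) + 1) ^ (D - 1) := by
    rw [h3]
    field_simp
    ring
  rw [h5] at h4
  linarith

/-- length of a cell -/
noncomputable def len (D : ℝ) (n : ℕ) : ℝ := (gp D (n + 1) : ℝ) - gp D n

lemma len_lower {D : ℝ} (hD : 1 < D) {n : ℕ} (hn : 0 < n) :
    (D - 1) * (n : ℝ) ^ (D - 1) ≤ len D n := by
  have h1 := step_lower (D := D) (by linarith) hn
  have h2 := lt_gp D (n + 1)
  have h3 := gp_le D n
  have h4 : (1 : ℝ) ≤ (n : ℝ) ^ (D - 1) :=
    Real.one_le_rpow (by exact_mod_cast hn) (by linarith)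
  unfold len
  push_cast at h2
  nlinarith

lemma len_pos {D : ℝ} (hD : 1 < D) {n : ℕ} (hn : 0 < n) : 0 < len D n :=
  lt_of_lt_of_le (mul_pos (by linarith) (Real.rpow_pos_of_pos (by exact_mod_cast hn) _))
    (len_lower hD hn)

lemma len_upper {D : ℝ} (hD : 1 < D) (n : ℕ) : len D n ≤ D * ((n : ℝ) + 1) ^ (D - 1) + 1 := by
  have h1 := step_upper (D := D) (by linarith) n
  have h2 := lt_gp D n
  have h3 := gp_le D (n + 1)
  unfold len
  push_cast at h3
  linarith

lemma log_gp_le {D : ℝ} (hD : 0 < D) {n : ℕ} (hn : 0 < n) :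
    Real.log (gp D n) ≤ D * Real.log n := by
  have hn0 : (0:ℝ) < n := by exact_mod_cast hn
  rw [← Real.log_rpow hn0]
  rcases Nat.eq_zero_or_pos (gp D n) with h | h
  · rw [h]
    simp only [Nat.cast_zero, Real.log_zero]
    apply Real.log_nonneg
    exact Real.one_le_rpow (by exact_mod_cast hn) hD.le
  · exact Real.log_le_log (by exact_mod_cast h) (gp_le D n)

lemma summable_B (K : ℝ) {a : ℝ} (ha : 1 < a) (r : ℕ) :
    Summable (fun n : ℕ => K * (Real.log n ^ r / (n : ℝ) ^ a)) := by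
  apply Summable.mul_left
  have h1 : (fun x : ℝ => Real.log x ^ ((r : ℕ) : ℝ)) =o[atTop] fun x : ℝ => x ^ ((a - 1) / 2 : ℝ) :=
    isLittleO_log_rpow_rpow_atTop _ (by linarith)
  have h2 := (h1.comp_tendsto tendsto_natCast_atTop_atTop).def (c := 1) one_pos
  refine summable_of_isBigO_nat (g := fun j : ℕ => 1 / (j : ℝ) ^ ((a + 1) / 2 : ℝ))
    (Real.summable_one_div_nat_rpow.2 (by linarith)) ?_
  apply IsBigO.of_bound 1
  filter_upwards [h2, eventually_ge_atTop 2] with j hj hj2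
  have hj0 : (0:ℝ) < j := by exact_mod_cast (by omega : 0 < j)
  have hl : 0 < Real.log j := Real.log_pos (by exact_mod_cast (by omega : 1 < j))
  simp only [Function.comp_apply] at hj
  rw [Real.rpow_natCast, one_mul, Real.norm_of_nonneg (by positivity),
    Real.norm_of_nonneg (by positivity)] at hj
  rw [one_mul, Real.norm_of_nonneg (by positivity), Real.norm_of_nonneg (by positivity),
    div_le_div_iff₀ (by positivity) (by positivity)]
  have h4 : (j : ℝ) ^ ((a - 1) / 2 : ℝ) * (j : ℝ) ^ ((a + 1) / 2 : ℝ) = (j : ℝ) ^ a := by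
    rw [← Real.rpow_add hj0]
    congr 1
    ring
  rw [one_mul, ← h4]
  exact mul_le_mul_of_nonneg_right hj (by positivity)

/-- quotient of logarithms at the ends of a cell -/
lemma log_cell {D : ℝ} (hD : 1 < D) (H : ℕ) :
    Tendsto (fun n => Real.log (gp D n) / Real.log ((gp D (n + 1) : ℝ) + H)) atTop (𝓝 1) := by
  have hD0 : 0 < D := by linarith
  have hg := gp_atTop hD0
  have hL : Tendsto (fun n : ℕ => Real.log (gp D n)) atTop atTop :=
    Real.tendsto_log_atTop.comp (tendsto_natCast_atTop_atTop.comp hg)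
  set K : ℝ := (2:ℝ) ^ D * 2 + H with hK
  have hK1 : 1 ≤ K := by
    have : (1:ℝ) ≤ 2 ^ D := Real.one_le_rpow (by norm_num) hD0.le
    have h2 : (0:ℝ) ≤ H := Nat.cast_nonneg _
    rw [hK]
    linarith
  have hlow : Tendsto (fun n : ℕ => Real.log (gp D n) / (Real.log K + Real.log (gp D n))) atTop
      (𝓝 1) := by
    have h1 : Tendsto (fun n : ℕ => (Real.log K / Real.log (gp D n) + 1)⁻¹) atTop (𝓝 1) := by
      have h2 := (hL.const_div_atTop (Real.log K)).add_const 1
      rw [zero_add] at h2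
      have := h2.inv₀ one_ne_zero
      rwa [inv_one] at this
    refine h1.congr' ?_
    filter_upwards [hL.eventually_gt_atTop 0] with n hn
    field_simp
  apply tendsto_of_tendsto_of_tendsto_of_le_of_le' hlow tendsto_const_nhds
  · filter_upwards [hL.eventually_gt_atTop 0, eventually_ge_atTop 1, hg.eventually_ge_atTop 1]
      with n hn hn1 hg1
    have hg1' : (1:ℝ) ≤ gp D n := by exact_mod_cast hg1
    have h1 : (gp D (n + 1) : ℝ) + H ≤ K * gp D n := by
      have h2 := gp_le D (n + 1)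
      have h3 : (((n + 1 : ℕ) : ℝ)) ^ D ≤ 2 ^ D * (n : ℝ) ^ D := by
        rw [← Real.mul_rpow (by norm_num) (Nat.cast_nonneg _)]
        apply Real.rpow_le_rpow (Nat.cast_nonneg _) _ hD0.le
        push_cast
        have : (1:ℝ) ≤ n := by exact_mod_cast hn1
        linarith
      have h4 := lt_gp D n
      have h5 : (0:ℝ) < 2 ^ D := by positivity
      have h6 : (2:ℝ) ^ D * (n : ℝ) ^ D ≤ 2 ^ D * (gp D n * 2) :=
        mul_le_mul_of_nonneg_left (by linarith) h5.le
      have h7 : (H : ℝ) ≤ H * gp D n := le_mul_of_one_le_right (Nat.cast_nonneg _) hg1'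
      calc (gp D (n + 1) : ℝ) + H ≤ 2 ^ D * (gp D n * 2) + H * gp D n := by linarith
        _ = K * gp D n := by rw [hK]; ring
    have h8 : (gp D n : ℝ) ≤ gp D (n + 1) + H := by
      have : (gp D n : ℝ) ≤ gp D (n + 1) := by exact_mod_cast gp_mono hD0 (Nat.le_succ n)
      have : (0:ℝ) ≤ H := Nat.cast_nonneg _
      linarith
    have h9 : Real.log ((gp D (n + 1) : ℝ) + H) ≤ Real.log K + Real.log (gp D n) := by
      rw [← Real.log_mul (by linarith) (by linarith)]
      exact Real.log_le_log (by linarith) h1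
    have h10 : 0 < Real.log ((gp D (n + 1) : ℝ) + H) :=
      lt_of_lt_of_le hn (Real.log_le_log (by linarith) h8)
    exact div_le_div_of_nonneg_left hn.le h10 h9
  · filter_upwards [hL.eventually_gt_atTop 0, eventually_ge_atTop 1, hg.eventually_ge_atTop 1]
      with n hn hn1 hg1
    have hg1' : (1:ℝ) ≤ gp D n := by exact_mod_cast hg1
    have h8 : (gp D n : ℝ) ≤ gp D (n + 1) + H := by
      have : (gp D n : ℝ) ≤ gp D (n + 1) := by exact_mod_cast gp_mono hD0 (Nat.le_succ n)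
      have : (0:ℝ) ≤ H := Nat.cast_nonneg _
      linarith
    have h11 := Real.log_le_log (by linarith) h8
    rw [div_le_one (lt_of_lt_of_le hn h11)]
    exact h11

end Q167.CT
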