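import Pool.Agent.Q167.CTa
import Pool.Agent.Q198.CI.Conc
import Pool.Agent.Q198.CI.G2

/-! # Patterns in the cells of the grid -/

set_option autoImplicit false

namespace Q167.CT

open Finset MeasureTheory Filter Topology Asymptotics Q198.CI

/-- number of translates of `h` with base point in `[0, N)` -/
noncomputable def CC {Ω : Type*} (E : ℕ → Set Ω) (h : Finset ℕ) (ω : Ω) (N : ℕ) : ℝ :=
  ∑ n ∈ range N, (Tup E h n).indicator (fun _ => (1:ℝ)) ω

lemma CC_mono {Ω : Type*} (E : ℕ → Set Ω) (h : Finset ℕ) (ω : Ω) : Monotone (CC E h ω) := by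
  intro N N' hN
  exact sum_le_sum_of_subset_of_nonneg (range_subset_range.2 hN) fun n _ _ =>
    Set.indicator_nonneg (fun _ _ => zero_le_one) _

lemma CC_sub {Ω : Type*} (E : ℕ → Set Ω) (h : Finset ℕ) (ω : Ω) {N N' : ℕ} (hN : N ≤ N') :
    CC E h ω N' - CC E h ω N = ∑ n ∈ Ico N N', (Tup E h n).indicator (fun _ => (1:ℝ)) ω := by
  unfold CC
  rw [← sum_range_add_sum_Ico _ hN]
  ring

/-- translates with base points in one residue class are independent of order `2m` -/
lemma class_indep {Ω : Type*} [MeasurableSpace Ω] {P : Measure Ω}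
    {κ : ℕ → ℕ} {E : ℕ → Set Ω} (hM : Model P κ E) {h : Finset ℕ} {m n₀ : ℕ} (hn₀ : 3 ≤ n₀)
    (hκ : ∀ n, n₀ ≤ n → 2 * m * h.card ≤ κ n) {c : ℕ} {T : Finset ℕ} (hT : T.card ≤ 2 * m)
    (hT0 : ∀ l ∈ T, n₀ ≤ l) (hTc : ∀ l ∈ T, l % (h.sup id + 1) = c) :
    P (⋂ l ∈ T, Tup E h l) =
      ENNReal.ofReal (∏ l ∈ T, ∏ a ∈ h, 1 / Real.log ((l : ℝ) + a)) := by
  classical
  have hdis : (T : Set ℕ).PairwiseDisjoint (fun l => h.map (addLeftEmbedding l)) := by
    intro l hl l' hl' hne
    rw [Function.onFun, Finset.disjoint_left]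
    intro v hv hv'
    rw [Finset.mem_map] at hv hv'
    obtain ⟨a, ha, rfl⟩ := hv
    obtain ⟨b, hb, hab⟩ := hv'
    rw [addLeftEmbedding_apply, addLeftEmbedding_apply] at hab
    apply hne
    have h1 : a ≤ h.sup id := Finset.le_sup (f := id) ha
    have h2 : b ≤ h.sup id := Finset.le_sup (f := id) hb
    have h3 : l ≡ l' [MOD (h.sup id + 1)] := (hTc l hl).trans (hTc l' hl').symm
    have h4 : a ≡ b [MOD (h.sup id + 1)] := by
      have h5 : l + a ≡ l' + b [MOD (h.sup id + 1)] := by rw [hab]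
      exact Nat.ModEq.add_left_cancel h3 h5
    have h6 : a = b := by
      have := h4
      unfold Nat.ModEq at this
      rwa [Nat.mod_eq_of_lt (by omega), Nat.mod_eq_of_lt (by omega)] at this
    omega
  have hcard : (T.biUnion (fun l => h.map (addLeftEmbedding l))).card ≤ 2 * m * h.card := by
    rw [card_biUnion hdis]
    simp only [card_map, sum_const, smul_eq_mul]
    exact Nat.mul_le_mul_right _ hT
  have h1 := hM.indep (T.biUnion (fun l => h.map (addLeftEmbedding l))) (by
    intro v hv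
    rw [mem_biUnion] at hv
    obtain ⟨l, hl, hv⟩ := hv
    rw [Finset.mem_map] at hv
    obtain ⟨a, _, rfl⟩ := hv
    rw [addLeftEmbedding_apply]
    have h2 := hT0 l hl
    have := hκ (l + a) (by omega)
    constructor
    · omega
    · exact hcard.trans this)
  have h2 : (⋂ v ∈ T.biUnion (fun l => h.map (addLeftEmbedding l)), E v) = ⋂ l ∈ T, Tup E h l := by
    ext ω
    simp only [Set.mem_iInter, mem_biUnion, Finset.mem_map, addLeftEmbedding_apply, mem_Tup]
    constructor
    · intro hx l hl a ha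
      exact hx (l + a) ⟨l, hl, a, ha, rfl⟩
    · rintro hx v ⟨l, hl, a, ha, rfl⟩
      exact hx l hl a ha
  rw [h2, prod_biUnion hdis] at h1
  rw [h1]
  congr 1
  refine prod_congr rfl fun l _ => ?_
  rw [prod_map]
  refine prod_congr rfl fun a _ => ?_
  rw [addLeftEmbedding_apply]
  push_cast
  rfl

lemma class_card {q : ℕ} (hq : 0 < q) {a b c : ℕ} (hab : a ≤ b) (hc : c < q) :
    ((b : ℝ) - a) / q - 1 ≤ (((Ico a b).filter (fun l => l % q = c)).card : ℝ) := by
  have h1 : (Ico a b).filter (fun l => l % q = c) = (Ico a b).filter (fun l => l ≡ c [MOD q]) := by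
    refine filter_congr fun l _ => ?_
    unfold Nat.ModEq
    rw [Nat.mod_eq_of_lt hc]
  rw [h1]
  have h2 := Nat.Ico_filter_modEq_card a b hq c
  have h3 : ((⌈((b : ℚ) - c) / q⌉ - ⌈((a : ℚ) - c) / q⌉ : ℤ)) ≤
      (((Ico a b).filter (fun l => l ≡ c [MOD q])).card : ℤ) := by
    rw [h2]
    exact le_max_left _ _
  have h4 : ((b : ℚ) - c) / q ≤ ⌈((b : ℚ) - c) / q⌉ := Int.le_ceil _
  have h5 : (⌈((a : ℚ) - c) / q⌉ : ℚ) < ((a : ℚ) - c) / q + 1 := Int.ceil_lt_add_one _
  have h6 : ((b : ℚ) - a) / q - 1 ≤ (((Ico a b).filter (fun l => l ≡ c [MOD q])).card : ℚ) := by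
    have h7 : ((⌈((b : ℚ) - c) / q⌉ - ⌈((a : ℚ) - c) / q⌉ : ℤ) : ℚ) ≤
      (((Ico a b).filter (fun l => l ≡ c [MOD q])).card : ℚ) := by exact_mod_cast h3
    push_cast at h7
    have h8 : ((b : ℚ) - a) / q = ((b : ℚ) - c) / q - ((a : ℚ) - c) / q := by ring
    rw [h8]
    linarith
  have h9 := (Rat.cast_le (K := ℝ)).2 h6
  push_cast at h9
  exact h9

/-- the main term in a cell -/
lemma main_term {h : Finset ℕ} {D : ℝ} (hD : 1 < D) :
    Tendsto (fun j => (∑ n ∈ Ico (gp D j) (gp D (j + 1)), ∏ a ∈ h, 1 / Real.log ((n : ℝ) + a)) *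
      (Real.log (gp D j) ^ h.card / len D j)) atTop (𝓝 1) := by
  have hD0 : 0 < D := by linarith
  set r := h.card with hr
  set m : ℕ → ℝ := fun n => ∏ a ∈ h, 1 / Real.log ((n : ℝ) + a) with hm
  set W : ℕ → ℝ := fun j => Real.log (gp D j) ^ r / len D j with hW
  set H := h.sup id with hH
  have hg := gp_atTop hD0
  have hL : Tendsto (fun n : ℕ => Real.log (gp D n)) atTop atTop :=
    Real.tendsto_log_atTop.comp (tendsto_natCast_atTop_atTop.comp hg)
  have hlow : Tendsto (fun n => (Real.log (gp D n) / Real.log ((gp D (n + 1) : ℝ) + H)) ^ r) atTop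
      (𝓝 1) := by
    have := (log_cell hD H).pow r
    rwa [one_pow] at this
  apply tendsto_of_tendsto_of_tendsto_of_le_of_le' hlow tendsto_const_nhds
  · filter_upwards [hL.eventually_gt_atTop 0, eventually_ge_atTop 1, hg.eventually_ge_atTop 2]
      with j hj hj1 hg2
    have hlen0 : 0 < len D j := len_pos hD (by omega)
    have h1 : ∀ n ∈ Ico (gp D j) (gp D (j + 1)),
        (1 / Real.log ((gp D (j + 1) : ℝ) + H)) ^ r ≤ m n := by
      intro n hn
      rw [mem_Ico] at hn
      simp only [hm]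
      rw [hr, ← prod_const]
      apply Finset.prod_le_prod
      · intro a _
        apply one_div_nonneg.2
        apply Real.log_nonneg
        have : (1:ℝ) ≤ gp D (j + 1) := by exact_mod_cast (by omega : 1 ≤ gp D (j + 1))
        linarith [(Nat.cast_nonneg H : (0:ℝ) ≤ H)]
      · intro a ha
        have haH : a ≤ H := Finset.le_sup (f := id) ha
        have h2 : (2:ℝ) ≤ n := by exact_mod_cast (by omega : 2 ≤ n)
        have h3 : (0:ℝ) ≤ a := Nat.cast_nonneg _
        apply one_div_le_one_div_of_le (Real.log_pos (by linarith))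
        apply Real.log_le_log (by linarith)
        have h4 : (n : ℝ) ≤ gp D (j + 1) := by exact_mod_cast hn.2.le
        have h5 : (a : ℝ) ≤ H := by exact_mod_cast haH
        linarith
    have h2 := sum_le_sum h1
    rw [sum_const, Nat.card_Ico, nsmul_eq_mul, Nat.cast_sub (gp_mono hD0 (Nat.le_succ _))] at h2
    have h3 : 0 ≤ W j := by
      simp only [hW]
      positivity
    calc (Real.log (gp D j) / Real.log ((gp D (j + 1) : ℝ) + H)) ^ r
        = (((gp D (j + 1) : ℝ) - gp D j) * (1 / Real.log ((gp D (j + 1) : ℝ) + H)) ^ r) * W j := by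
          have h4 : ((gp D (j + 1) : ℝ) - gp D j) = len D j := rfl
          simp only [hW]
          rw [h4, div_pow, one_div_pow]
          field_simp
      _ ≤ _ := mul_le_mul_of_nonneg_right h2 h3
  · filter_upwards [hL.eventually_gt_atTop 0, eventually_ge_atTop 1, hg.eventually_ge_atTop 2]
      with j hj hj1 hg2
    have hlen0 : 0 < len D j := len_pos hD (by omega)
    have h1 : ∀ n ∈ Ico (gp D j) (gp D (j + 1)), m n ≤ (1 / Real.log (gp D j)) ^ r := by
      intro n hn
      rw [mem_Ico] at hn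
      simp only [hm]
      rw [hr, ← prod_const]
      have h2 : (2:ℝ) ≤ n := by exact_mod_cast (by omega : 2 ≤ n)
      apply Finset.prod_le_prod
      · intro a _
        have h3 : (0:ℝ) ≤ a := Nat.cast_nonneg _
        apply one_div_nonneg.2
        exact Real.log_nonneg (by linarith)
      · intro a ha
        have h3 : (0:ℝ) ≤ a := Nat.cast_nonneg _
        apply one_div_le_one_div_of_le hj
        have h4 : (gp D j : ℝ) ≤ n := by exact_mod_cast hn.1
        have h5 : (2:ℝ) ≤ gp D j := by exact_mod_cast hg2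
        apply Real.log_le_log (by linarith)
        linarith
    have h2 := sum_le_sum h1
    rw [sum_const, Nat.card_Ico, nsmul_eq_mul, Nat.cast_sub (gp_mono hD0 (Nat.le_succ _))] at h2
    have h3 : 0 ≤ W j := by
      simp only [hW]
      positivity
    calc (∑ n ∈ Ico (gp D j) (gp D (j + 1)), m n) * W j
        ≤ (((gp D (j + 1) : ℝ) - gp D j) * (1 / Real.log (gp D j)) ^ r) * W j :=
          mul_le_mul_of_nonneg_right h2 h3
      _ = 1 := by
          have h4 : ((gp D (j + 1) : ℝ) - gp D j) = len D j := rfl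
          simp only [hW]
          rw [h4, one_div_pow]
          field_simp

/-- the base points of a class in a cell -/
noncomputable def IC (D : ℝ) (q c n : ℕ) : Finset ℕ :=
  (Ico (gp D n) (gp D (n + 1))).filter (fun l => l % q = c)

/-- one residue class: large deviations are rare -/
lemma class_dev {Ω : Type*} [MeasurableSpace Ω] {P : Measure Ω} [IsProbabilityMeasure P]
    {κ : ℕ → ℕ} {E : ℕ → Set Ω} (hM : Model P κ E) {h : Finset ℕ} {m : ℕ} (hm : 0 < m)
    (hκ : ∀ᶠ n in atTop, 2 * m * h.card ≤ κ n) {D : ℝ} (hD : 1 + 1 / (m : ℝ) < D) {c : ℕ}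
    (hc : c < h.sup id + 1) {δ : ℝ} (hδ : 0 < δ) :
    ∀ᵐ ω ∂P, ∀ᶠ n in atTop,
      |cnt (Tup E h) (IC D (h.sup id + 1) c n) ω -
        ∑ l ∈ IC D (h.sup id + 1) c n, ∏ a ∈ h, 1 / Real.log ((l : ℝ) + a)| ≤
      δ * ∑ l ∈ IC D (h.sup id + 1) c n, ∏ a ∈ h, 1 / Real.log ((l : ℝ) + a) := by
  classical
  have hm' : (0:ℝ) < m := by exact_mod_cast hm
  have hD1 : 1 < D := by
    have : 0 < 1 / (m : ℝ) := by positivity
    linarith
  have hD0 : 0 < D := by linarith
  set q := h.sup id + 1 with hq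
  set r := h.card with hr
  have hq0 : (0:ℝ) < q := by
    rw [hq]
    positivity
  obtain ⟨n₁, hn₁⟩ := eventually_atTop.1 hκ
  set n₀ := max n₁ 3 with hn₀
  have hn₀3 : 3 ≤ n₀ := le_max_right _ _
  have hκ' : ∀ n, n₀ ≤ n → 2 * m * h.card ≤ κ n := fun n hn => hn₁ n ((le_max_left _ _).trans hn)
  set p : ℕ → ℝ := fun l => ∏ a ∈ h, 1 / Real.log ((l : ℝ) + a) with hp
  have hmeas : ∀ n, MeasurableSet (Tup E h n) := fun n =>
    Finset.measurableSet_biInter _ fun a _ => hM.meas _
  set K : ℝ := 2 * (Real.exp 2 * (2 * m) * (2 * q) * (2 * D) ^ r / (δ ^ 2 * (D - 1))) ^ m with hK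
  have hexp : 1 < (D - 1) * m := by
    have : 1 / (m : ℝ) < D - 1 := by linarith
    rwa [div_lt_iff₀ hm'] at this
  have hL : Tendsto (fun n : ℕ => Real.log (gp D n)) atTop atTop :=
    Real.tendsto_log_atTop.comp (tendsto_natCast_atTop_atTop.comp (gp_atTop hD0))
  have hrat := (log_cell hD1 (h.sup id)).eventually_const_le (show (1 / 2 : ℝ) < 1 by norm_num)
  -- lower bound for the mean
  have hpowlog : Tendsto (fun n : ℕ => (n : ℝ) ^ (D - 1) / (Real.log n) ^ r) atTop atTop := by
    have h1 : (fun x : ℝ => Real.log x ^ ((r : ℕ) : ℝ)) =o[atTop] fun x : ℝ => x ^ (D - 1) :=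
      isLittleO_log_rpow_rpow_atTop _ (by linarith)
    have h2 := (h1.comp_tendsto tendsto_natCast_atTop_atTop).tendsto_div_nhds_zero
    have h3 : Tendsto (fun n : ℕ => Real.log n ^ r / (n : ℝ) ^ (D - 1)) atTop (𝓝[>] 0) := by
      rw [tendsto_nhdsWithin_iff]
      constructor
      · refine h2.congr fun n => ?_
        simp only [Function.comp_apply, Real.rpow_natCast]
      · filter_upwards [eventually_ge_atTop 2] with n hn
        have hn0 : (0:ℝ) < n := by exact_mod_cast (by omega : 0 < n)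
        have hl : 0 < Real.log n := Real.log_pos (by exact_mod_cast (by omega : 1 < n))
        rw [Set.mem_Ioi]
        positivity
    refine h3.inv_tendsto_nhdsGT_zero.congr fun n => ?_
    rw [Pi.inv_apply, inv_div]
  have hcc : 0 < (D - 1) / (2 * q * (2 * D) ^ r) := div_pos (by linarith) (by positivity)
  have hmean : ∀ᶠ n : ℕ in atTop, (D - 1) / (2 * q * (2 * D) ^ r) *
      ((n : ℝ) ^ (D - 1) / (Real.log n) ^ r) ≤ ∑ l ∈ IC D q c n, p l := by
    have hlen2 : Tendsto (fun n : ℕ => len D n) atTop atTop := by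
      have h1 : Tendsto (fun n : ℕ => (D - 1) * (n : ℝ) ^ (D - 1)) atTop atTop :=
        ((tendsto_rpow_atTop (by linarith)).comp tendsto_natCast_atTop_atTop).const_mul_atTop
          (by linarith)
      refine tendsto_atTop_mono' _ ?_ h1
      filter_upwards [eventually_ge_atTop 1] with n hn
      exact len_lower hD1 (by omega)
    filter_upwards [hrat, eventually_ge_atTop 2, hL.eventually_gt_atTop 0,
      hlen2.eventually_ge_atTop (2 * q), (gp_atTop hD0).eventually_ge_atTop 3]
      with n hn1 hn2 hn3 hn4 hn5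
    have hn0 : (0:ℝ) < n := by exact_mod_cast (by omega : 0 < n)
    have hl : 0 < Real.log n := Real.log_pos (by exact_mod_cast (by omega : 1 < n))
    have hlg := log_gp_le hD0 (n := n) (by omega)
    have hg3 : (3:ℝ) ≤ gp D n := by exact_mod_cast hn5
    have hgm : (gp D n : ℝ) ≤ gp D (n + 1) := by exact_mod_cast gp_mono hD0 (Nat.le_succ n)
    have hsup0 : (0:ℝ) ≤ ((h.sup id : ℕ) : ℝ) := Nat.cast_nonneg _
    have hL1 : 0 < Real.log ((gp D (n + 1) : ℝ) + (h.sup id : ℕ)) :=
      Real.log_pos (by linarith)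
    have hL2 : Real.log ((gp D (n + 1) : ℝ) + (h.sup id : ℕ)) ≤ 2 * D * Real.log n := by
      rw [le_div_iff₀ hL1] at hn1
      linarith
    have h1 : ∀ l ∈ IC D q c n, (1 / (2 * D * Real.log n)) ^ r ≤ p l := by
      intro l hl'
      unfold IC at hl'
      rw [mem_filter, mem_Ico] at hl'
      simp only [hp]
      rw [hr, ← prod_const]
      apply Finset.prod_le_prod
      · intro a _
        positivity
      · intro a ha
        have haH : a ≤ h.sup id := Finset.le_sup (f := id) ha
        have h2 : (3:ℝ) ≤ l := by exact_mod_cast (by omega : 3 ≤ l)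
        have h3 : (0:ℝ) ≤ a := Nat.cast_nonneg _
        apply one_div_le_one_div_of_le (Real.log_pos (by linarith))
        refine le_trans (Real.log_le_log (by linarith) ?_) hL2
        have h4 : (l : ℝ) ≤ gp D (n + 1) := by exact_mod_cast hl'.1.2.le
        have h5 : (a : ℝ) ≤ (h.sup id : ℕ) := by exact_mod_cast haH
        linarith
    have h2 := card_nsmul_le_sum _ _ _ h1
    rw [nsmul_eq_mul] at h2
    have h3 : len D n / (2 * q) ≤ ((IC D q c n).card : ℝ) := by
      have h4 := class_card (q := q) (by omega) (gp_mono hD0 (Nat.le_succ n)) hc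
      have h5 : ((gp D (n + 1) : ℝ) - gp D n) = len D n := rfl
      rw [Nat.succ_eq_add_one, h5] at h4
      refine le_trans ?_ h4
      rw [le_sub_iff_add_le]
      have h6 : len D n / q = len D n / (2 * q) + len D n / (2 * q) := by
        field_simp
        ring
      rw [h6]
      have h7 : 1 ≤ len D n / (2 * q) := by
        rw [le_div_iff₀ (by positivity)]
        linarith
      linarith
    have hlen := len_lower hD1 (n := n) (by omega)
    calc (D - 1) / (2 * q * (2 * D) ^ r) * ((n : ℝ) ^ (D - 1) / (Real.log n) ^ r)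
        = ((D - 1) * (n : ℝ) ^ (D - 1)) / (2 * q) * (1 / (2 * D * Real.log n)) ^ r := by
          simp only [one_div_pow, mul_pow]
          field_simp
      _ ≤ (len D n / (2 * q)) * (1 / (2 * D * Real.log n)) ^ r := by gcongr
      _ ≤ ((IC D q c n).card : ℝ) * (1 / (2 * D * Real.log n)) ^ r := by gcongr
      _ ≤ _ := h2
  have hbig : ∀ᶠ n : ℕ in atTop, (2 * m : ℝ) ≤ ∑ l ∈ IC D q c n, p l := by
    filter_upwards [hmean, (hpowlog.const_mul_atTop hcc).eventually_ge_atTop (2 * m : ℝ)] with n h1 h2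
    exact h2.trans h1
  have key := bc_eventually (P := P)
    (s := fun n => {ω | δ * ∑ l ∈ IC D q c n, p l ≤ |cnt (Tup E h) (IC D q c n) ω -
      ∑ l ∈ IC D q c n, p l|})
    (summable_B K hexp (r * m)) (by
    filter_upwards [hmean, hbig, (gp_atTop hD0).eventually_ge_atTop n₀, eventually_ge_atTop 2]
      with n h1 h2 h3 h4
    have hn0 : (0:ℝ) < n := by exact_mod_cast (by omega : 0 < n)
    have hl : 0 < Real.log n := Real.log_pos (by exact_mod_cast (by omega : 1 < n))
    have hlarge : ∀ l ∈ IC D q c n, n₀ ≤ l := by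
      intro l hl
      unfold IC at hl
      rw [mem_filter, mem_Ico] at hl
      omega
    have hp0 : ∀ l ∈ IC D q c n, 0 ≤ p l := by
      intro l _
      apply prod_nonneg
      intro a _
      have h5 : (0:ℝ) ≤ Real.log (((l + a : ℕ) : ℝ)) := Real.log_natCast_nonneg _
      push_cast at h5
      exact one_div_nonneg.2 h5
    have hp1 : ∀ l ∈ IC D q c n, p l ≤ 1 := by
      intro l hl
      have h5 := hlarge l hl
      apply Finset.prod_le_one
      · intro a _
        have h5 : (0:ℝ) ≤ Real.log (((l + a : ℕ) : ℝ)) := Real.log_natCast_nonneg _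
        push_cast at h5
        exact one_div_nonneg.2 h5
      · intro a _
        have h6 : 1 < Real.log (((l + a : ℕ) : ℝ)) := one_lt_log (by omega)
        push_cast at h6
        rw [div_le_one (by linarith)]
        exact h6.le
    refine (meas_conc P hmeas hm hp0 hp1 (fun T hT hTc => ?_) h2 hδ).trans ?_
    · refine class_indep hM hn₀3 hκ' hTc (fun l hl => hlarge l (hT hl)) (c := c) fun l hl => ?_
      have h6 := hT hl
      unfold IC at h6
      exact (mem_filter.1 h6).2
    · apply ENNReal.ofReal_le_ofReal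
      have h6 : 0 < (D - 1) / (2 * q * (2 * D) ^ r) * ((n : ℝ) ^ (D - 1) / (Real.log n) ^ r) :=
        mul_pos hcc (by positivity)
      have hD1' : 0 < D - 1 := by linarith
      calc 2 * (Real.exp 2 * (2 * m) / (δ ^ 2 * ∑ l ∈ IC D q c n, p l)) ^ m
          ≤ 2 * (Real.exp 2 * (2 * m) / (δ ^ 2 * ((D - 1) / (2 * q * (2 * D) ^ r) *
            ((n : ℝ) ^ (D - 1) / (Real.log n) ^ r)))) ^ m := by
            have h8 : 0 < ∑ l ∈ IC D q c n, p l := lt_of_lt_of_le h6 h1
            refine mul_le_mul_of_nonneg_left (pow_le_pow_left₀ (by positivity) ?_ m) (by norm_num)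
            refine div_le_div_of_nonneg_left (by positivity) (mul_pos (by positivity) h6) ?_
            exact mul_le_mul_of_nonneg_left h1 (by positivity)
        _ = K * (Real.log n ^ (r * m) / (n : ℝ) ^ ((D - 1) * m)) := by
            have h7 : (n : ℝ) ^ ((D - 1) * m) = ((n : ℝ) ^ (D - 1)) ^ m := by
              rw [Real.rpow_mul hn0.le, Real.rpow_natCast]
            rw [hK, h7, pow_mul, ← div_pow, mul_assoc 2 (_ ^ m) (_ ^ m), ← mul_pow]
            congr 2
            field_simp)
  filter_upwards [key] with ω hω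
  filter_upwards [hω] with n hn
  simp only [Set.mem_ofPred_eq, not_le] at hn
  exact hn.le

theorem cells {Ω : Type*} [MeasurableSpace Ω] {P : Measure Ω} [IsProbabilityMeasure P]
    {κ : ℕ → ℕ} {E : ℕ → Set Ω} (hM : Model P κ E) {h : Finset ℕ} {m : ℕ} (hm : 0 < m)
    (hκ : ∀ᶠ n in atTop, 2 * m * h.card ≤ κ n) {D : ℝ} (hD : 1 + 1 / (m : ℝ) < D) :
    ∀ᵐ ω ∂P, Tendsto (fun n : ℕ => (CC E h ω (gp D (n + 1)) - CC E h ω (gp D n)) *
      (Real.log (gp D n) ^ h.card / len D n)) atTop (𝓝 1) := by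
  classical
  have hm' : (0:ℝ) < m := by exact_mod_cast hm
  have hD1 : 1 < D := by
    have : 0 < 1 / (m : ℝ) := by positivity
    linarith
  have hD0 : 0 < D := by linarith
  have h1 : ∀ᵐ ω ∂P, ∀ t : ℕ, ∀ c ∈ range (h.sup id + 1), ∀ᶠ n in atTop,
      |cnt (Tup E h) (IC D (h.sup id + 1) c n) ω -
        ∑ l ∈ IC D (h.sup id + 1) c n, ∏ a ∈ h, 1 / Real.log ((l : ℝ) + a)| ≤
      (1 / ((t : ℝ) + 1)) * ∑ l ∈ IC D (h.sup id + 1) c n, ∏ a ∈ h, 1 / Real.log ((l : ℝ) + a) := by
    rw [ae_all_iff]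
    intro t
    rw [ae_all_iff]
    intro c
    by_cases hc : c ∈ range (h.sup id + 1)
    · filter_upwards [class_dev hM hm hκ hD (mem_range.1 hc)
        (show (0:ℝ) < 1 / ((t : ℝ) + 1) by positivity)] with ω hω _
      exact hω
    · exact ae_of_all _ fun ω h2 => absurd h2 hc
  filter_upwards [h1] with ω hω
  have hmain := main_term (h := h) hD1
  set p : ℕ → ℝ := fun l => ∏ a ∈ h, 1 / Real.log ((l : ℝ) + a) with hp
  -- the whole cell
  have hsplit : ∀ (f : ℕ → ℝ) (n : ℕ), ∑ l ∈ Ico (gp D n) (gp D (n + 1)), f l =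
      ∑ c ∈ range (h.sup id + 1), ∑ l ∈ IC D (h.sup id + 1) c n, f l := by
    intro f n
    unfold IC
    rw [sum_fiberwise_of_maps_to]
    intro l _
    rw [mem_range]
    exact Nat.mod_lt _ (by omega)
  have hcell : ∀ t : ℕ, ∀ᶠ n in atTop,
      |(CC E h ω (gp D (n + 1)) - CC E h ω (gp D n)) - ∑ l ∈ Ico (gp D n) (gp D (n + 1)), p l| ≤
      (1 / ((t : ℝ) + 1)) * ∑ l ∈ Ico (gp D n) (gp D (n + 1)), p l := by
    intro t
    have h2 := (eventually_all_finset (range (h.sup id + 1))).2 (hω t)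
    filter_upwards [h2] with n hn
    rw [CC_sub E h ω (gp_mono hD0 (Nat.le_succ _)), hsplit, hsplit, ← sum_sub_distrib, mul_sum]
    refine (abs_sum_le_sum_abs _ _).trans (sum_le_sum fun c hc => ?_)
    exact hn c hc
  set W : ℕ → ℝ := fun n => Real.log (gp D n) ^ h.card / len D n with hW
  have hW0 : ∀ᶠ n in atTop, 0 ≤ W n := by
    filter_upwards [eventually_ge_atTop 1] with n hn
    simp only [hW]
    have := len_pos hD1 (n := n) (by omega)
    have := Real.log_natCast_nonneg (gp D n)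
    positivity
  have hdiff : Tendsto (fun n : ℕ => ((CC E h ω (gp D (n + 1)) - CC E h ω (gp D n)) -
      ∑ l ∈ Ico (gp D n) (gp D (n + 1)), p l) * W n) atTop (𝓝 0) := by
    rw [Metric.tendsto_atTop']
    intro ε hε
    obtain ⟨t, ht⟩ := exists_nat_one_div_lt (show 0 < ε / 2 by positivity)
    obtain ⟨N, hN⟩ := eventually_atTop.1 ((hcell t).and (hW0.and
      (hmain.eventually_le_const (show (1:ℝ) < 2 by norm_num))))
    refine ⟨N, fun n hn => ?_⟩
    obtain ⟨h2, h3, h4⟩ := hN n hn.le
    rw [Real.dist_eq, sub_zero, abs_mul, abs_of_nonneg h3]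
    calc _ ≤ ((1 / ((t : ℝ) + 1)) * ∑ l ∈ Ico (gp D n) (gp D (n + 1)), p l) * W n :=
          mul_le_mul_of_nonneg_right h2 h3
      _ = (1 / ((t : ℝ) + 1)) * ((∑ l ∈ Ico (gp D n) (gp D (n + 1)), p l) * W n) := by ring
      _ ≤ (1 / ((t : ℝ) + 1)) * 2 := mul_le_mul_of_nonneg_left h4 (by positivity)
      _ < ε := by linarith
  have h5 := hdiff.add hmain
  rw [zero_add] at h5
  refine h5.congr fun n => ?_
  ring

end Q167.CT
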