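import Pool.Agent.Q167.CTb

/-! # From the grid to all short intervals -/

set_option autoImplicit false

namespace Q167.CT

open Finset MeasureTheory Filter Topology Asymptotics Q198.CI

lemma telescope_le {a : ℕ → ℕ} (C : ℕ → ℝ) {c : ℝ} {i j : ℕ} (hij : i ≤ j)
    (h : ∀ l, i ≤ l → l < j → C (a (l + 1)) - C (a l) ≤ c * ((a (l + 1) : ℝ) - a l)) :
    C (a j) - C (a i) ≤ c * ((a j : ℝ) - a i) := by
  induction j, hij using Nat.le_induction with
  | base => simp
  | succ j hij ih =>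
    have h1 := ih fun l hl hl' => h l hl (by omega)
    have h2 := h j hij (by omega)
    linarith

lemma telescope_ge {a : ℕ → ℕ} (C : ℕ → ℝ) {c : ℝ} {i j : ℕ} (hij : i ≤ j)
    (h : ∀ l, i ≤ l → l < j → c * ((a (l + 1) : ℝ) - a l) ≤ C (a (l + 1)) - C (a l)) :
    c * ((a j : ℝ) - a i) ≤ C (a j) - C (a i) := by
  induction j, hij using Nat.le_induction with
  | base => simp
  | succ j hij ih =>
    have h1 := ih fun l hl hl' => h l hl (by omega)
    have h2 := h j hij (by omega)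
    linarith

lemma log_shift (c : ℝ) (r : ℕ) :
    Tendsto (fun x : ℝ => (Real.log x / (Real.log x + c)) ^ r) atTop (𝓝 1) := by
  have h1 : Tendsto (fun x : ℝ => (1 + c / Real.log x)⁻¹) atTop (𝓝 1) := by
    have h2 := (Real.tendsto_log_atTop.const_div_atTop c).const_add 1
    rw [add_zero] at h2
    have := h2.inv₀ one_ne_zero
    rwa [inv_one] at this
  have h3 := (h1.pow r)
  rw [one_pow] at h3
  refine h3.congr' ?_
  filter_upwards [Real.tendsto_log_atTop.eventually_gt_atTop 0,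
    Real.tendsto_log_atTop.eventually_gt_atTop (-c)] with x hx hx2
  congr 1
  have : Real.log x + c ≠ 0 := by linarith
  field_simp

lemma gp_lower {D : ℝ} (hD : 1 < D) {x : ℝ} (hx : 0 ≤ x) :
    gp D ⌊x ^ (1 / D)⌋₊ ≤ ⌊x⌋₊ ∧ ⌊x⌋₊ ≤ gp D (⌊x ^ (1 / D)⌋₊ + 1) := by
  have hD0 : 0 < D := by linarith
  have hx1 : (x ^ (1 / D)) ^ D = x := by
    rw [← Real.rpow_mul hx, one_div_mul_cancel hD0.ne', Real.rpow_one]
  constructor
  · apply Nat.floor_le_floor
    calc ((⌊x ^ (1 / D)⌋₊ : ℕ) : ℝ) ^ D ≤ (x ^ (1 / D)) ^ D :=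
          Real.rpow_le_rpow (Nat.cast_nonneg _) (Nat.floor_le (Real.rpow_nonneg hx _)) hD0.le
      _ = x := hx1
  · apply Nat.floor_le_floor
    calc x = (x ^ (1 / D)) ^ D := hx1.symm
      _ ≤ ((⌊x ^ (1 / D)⌋₊ + 1 : ℕ) : ℝ) ^ D := by
          apply Real.rpow_le_rpow (Real.rpow_nonneg hx _) _ hD0.le
          push_cast
          exact (Nat.lt_floor_add_one _).le

theorem short {C : ℕ → ℝ} (hC : Monotone C) {D : ℝ} (hD : 1 < D) (r : ℕ)
    (hcell : Tendsto (fun n : ℕ => (C (gp D (n + 1)) - C (gp D n)) *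
      (Real.log (gp D n) ^ r / len D n)) atTop (𝓝 1)) {θ : ℝ} (hθ : 1 - 1 / D < θ)
    {ε : ℝ} (hε : 0 < ε) :
    ∀ᶠ x : ℝ in atTop, ∀ y : ℝ, x ^ θ ≤ y → y ≤ x →
      |(C (⌊x + y⌋₊ + 1) - C (⌊x⌋₊ + 1)) * Real.log x ^ r / y - 1| ≤ ε := by
  have hD0 : 0 < D := by linarith
  -- the small parameter
  obtain ⟨δ, hδ0, hδ1, hδu, hδl⟩ : ∃ δ : ℝ, 0 < δ ∧ δ < 1 ∧ (1 + δ) ^ 3 ≤ 1 + ε ∧
      1 - ε ≤ (1 - δ) ^ 3 := by
    refine ⟨min (1 / 2) (ε / 7), by positivity, by
      exact lt_of_le_of_lt (min_le_left _ _) (by norm_num), ?_, ?_⟩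
    · have h1 : min (1 / 2) (ε / 7) ≤ 1 / 2 := min_le_left _ _
      have h2 : min (1 / 2) (ε / 7) ≤ ε / 7 := min_le_right _ _
      have h3 : 0 < min (1 / 2) (ε / 7) := by positivity
      nlinarith [mul_nonneg h3.le h3.le, mul_nonneg (mul_nonneg h3.le h3.le) h3.le]
    · have h1 : min (1 / 2) (ε / 7) ≤ 1 / 2 := min_le_left _ _
      have h2 : min (1 / 2) (ε / 7) ≤ ε / 7 := min_le_right _ _
      have h3 : 0 < min (1 / 2) (ε / 7) := by positivity
      nlinarith [mul_nonneg h3.le h3.le, mul_nonneg (mul_nonneg h3.le h3.le) h3.le]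
  have hup := hcell.eventually_le_const (show (1:ℝ) < 1 + δ by linarith)
  have hlo := hcell.eventually_const_le (show 1 - δ < (1:ℝ) by linarith)
  obtain ⟨l₀, hl₀⟩ := eventually_atTop.1 (hup.and hlo)
  have hi : Tendsto (fun x : ℝ => ⌊x ^ (1 / D)⌋₊) atTop atTop :=
    tendsto_nat_floor_atTop.comp (tendsto_rpow_atTop (by positivity))
  have hpow : Tendsto (fun x : ℝ => x ^ (1 / D)) atTop atTop := tendsto_rpow_atTop (by positivity)
  -- length of the cells
  have hsmall : ∀ᶠ x : ℝ in atTop, 1 + 3 * (D * (4 * x ^ (1 / D)) ^ (D - 1) + 1) ≤ δ * x ^ θ := by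
    have h1 : (fun x : ℝ => x ^ (1 - 1 / D)) =o[atTop] fun x : ℝ => x ^ θ := by
      rw [isLittleO_iff_tendsto']
      · refine (tendsto_rpow_neg_atTop (y := θ - (1 - 1 / D)) (by linarith)).congr' ?_
        filter_upwards [eventually_gt_atTop 0] with x hx
        rw [← Real.rpow_sub hx]
        congr 1
        ring
      · filter_upwards [eventually_gt_atTop 0] with x hx h
        exact absurd h (Real.rpow_pos_of_pos hx _).ne'
    have h0 : 0 < 1 - 1 / D := by
      rw [sub_pos, div_lt_one hD0]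
      linarith
    have h2 : (fun _ : ℝ => (4:ℝ)) =o[atTop] fun x : ℝ => x ^ θ := by
      rw [isLittleO_const_left]
      right
      exact tendsto_norm_atTop_atTop.comp (tendsto_rpow_atTop (h0.trans hθ))
    have h3 : (fun x : ℝ => 3 * (D * 4 ^ (D - 1)) * x ^ (1 - 1 / D) + 4) =o[atTop]
        fun x : ℝ => x ^ θ := (h1.const_mul_left _).add h2
    filter_upwards [h3.def hδ0, eventually_gt_atTop 0] with x hx hx0
    rw [Real.norm_of_nonneg (Real.rpow_nonneg hx0.le _)] at hx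
    have h4 := (le_abs_self _).trans hx
    have h5 : (4 * x ^ (1 / D)) ^ (D - 1) = 4 ^ (D - 1) * x ^ (1 - 1 / D) := by
      rw [Real.mul_rpow (by norm_num) (Real.rpow_nonneg hx0.le _), ← Real.rpow_mul hx0.le]
      congr 2
      field_simp
    rw [h5]
    linarith
  have hlogu := (log_shift (-Real.log 2) r).eventually_le_const (show (1:ℝ) < 1 + δ by linarith)
  have hlogl := (log_shift (Real.log 4) r).eventually_const_le (show 1 - δ < (1:ℝ) by linarith)
  filter_upwards [hsmall, hlogu, hlogl, hi.eventually_ge_atTop (l₀ + 1), eventually_ge_atTop 16,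
    hpow.eventually_ge_atTop 3] with x hx1 hx2 hx3 hx4 hx16 hx5 y hy1 hy2
  have hx0 : 0 < x := by linarith
  have hy0 : 0 < y := lt_of_lt_of_le (Real.rpow_pos_of_pos hx0 _) hy1
  set i := ⌊x ^ (1 / D)⌋₊ with hidef
  set j := ⌊(x + y) ^ (1 / D)⌋₊ with hjdef
  have hij : i ≤ j := Nat.floor_le_floor (Real.rpow_le_rpow hx0.le (by linarith) (by positivity))
  obtain ⟨ai, bi⟩ := gp_lower hD hx0.le
  obtain ⟨aj, bj⟩ := gp_lower hD (show 0 ≤ x + y by linarith)
  rw [← hidef] at ai bi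
  rw [← hjdef] at aj bj
  -- bound for the lengths
  set M := D * (4 * x ^ (1 / D)) ^ (D - 1) + 1 with hM
  have hlen : ∀ l, l ≤ j + 1 → len D l ≤ M := by
    intro l hl
    refine (len_upper hD l).trans ?_
    rw [hM]
    refine add_le_add (mul_le_mul_of_nonneg_left (Real.rpow_le_rpow (by positivity) ?_
      (by linarith)) hD0.le) le_rfl
    have h1 : ((l : ℝ) + 1) ≤ (j : ℝ) + 2 := by
      have : (l : ℝ) ≤ j + 1 := by exact_mod_cast hl
      linarith
    have h2 : (j : ℝ) ≤ (x + y) ^ (1 / D) := Nat.floor_le (Real.rpow_nonneg (by linarith) _)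
    have h3 : (x + y) ^ (1 / D) ≤ 2 * x ^ (1 / D) := by
      calc (x + y) ^ (1 / D) ≤ (2 * x) ^ (1 / D) :=
            Real.rpow_le_rpow (by linarith) (by linarith) (by positivity)
        _ = 2 ^ (1 / D) * x ^ (1 / D) := Real.mul_rpow (by norm_num) hx0.le
        _ ≤ 2 * x ^ (1 / D) := by
            apply mul_le_mul_of_nonneg_right _ (Real.rpow_nonneg hx0.le _)
            calc (2:ℝ) ^ (1 / D) ≤ 2 ^ (1:ℝ) := by
                  apply Real.rpow_le_rpow_of_exponent_le (by norm_num)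
                  rw [div_le_one hD0]
                  linarith
              _ = 2 := Real.rpow_one _
    linarith
  have hM0 : 0 < M := by positivity
  have hxθ : 1 + 3 * M ≤ δ * y := hx1.trans (mul_le_mul_of_nonneg_left hy1 hδ0.le)
  have hMy : 1 + 3 * M ≤ δ * x := hxθ.trans (mul_le_mul_of_nonneg_left hy2 hδ0.le)
  have hδx : δ * x ≤ x := by
    calc δ * x ≤ 1 * x := mul_le_mul_of_nonneg_right hδ1.le hx0.le
      _ = x := one_mul x
  have hmono := gp_mono hD0
  have hfx : x < (⌊x⌋₊ : ℝ) + 1 := Nat.lt_floor_add_one x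
  have hfx' : (⌊x⌋₊ : ℝ) ≤ x := Nat.floor_le hx0.le
  have hfxy : x + y < (⌊x + y⌋₊ : ℝ) + 1 := Nat.lt_floor_add_one _
  have hfxy' : (⌊x + y⌋₊ : ℝ) ≤ x + y := Nat.floor_le (by linarith)
  have e1 : (gp D i : ℝ) ≤ ⌊x⌋₊ := by exact_mod_cast ai
  have e2 : (⌊x⌋₊ : ℝ) ≤ gp D (i + 1) := by exact_mod_cast bi
  have e3 : (gp D j : ℝ) ≤ ⌊x + y⌋₊ := by exact_mod_cast aj
  have e4 : (⌊x + y⌋₊ : ℝ) ≤ gp D (j + 1) := by exact_mod_cast bj
  have f1 := hlen i (by omega)
  have f2 := hlen (i + 1) (by omega)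
  have f3 := hlen j (by omega)
  have f4 := hlen (j + 1) (by omega)
  have g2 : len D (i + 1) = (gp D (i + 2) : ℝ) - gp D (i + 1) := rfl
  have g4 : len D (j + 1) = (gp D (j + 2) : ℝ) - gp D (j + 1) := rfl
  have g1 : len D i = (gp D (i + 1) : ℝ) - gp D i := rfl
  have g3 : len D j = (gp D (j + 1) : ℝ) - gp D j := rfl
  have hlt : ∀ l, 1 ≤ l → gp D l < gp D (l + 1) := by
    intro l hl
    have h2 : 0 < len D l := len_pos hD (by omega)
    unfold len at h2
    have h3 : (gp D l : ℝ) < gp D (l + 1) := by linarith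
    exact_mod_cast h3
  -- the logarithms
  have hal : ∀ l, i ≤ l → l ≤ j + 2 → x / 2 ≤ gp D l ∧ (gp D l : ℝ) ≤ 4 * x := by
    intro l hl hl'
    constructor
    · have h1 : (gp D i : ℝ) ≤ gp D l := by exact_mod_cast hmono hl
      linarith
    · have h1 : (gp D l : ℝ) ≤ gp D (j + 2) := by exact_mod_cast hmono hl'
      linarith
  have hlx2 : Real.log (x / 2) = Real.log x + -Real.log 2 := by
    rw [Real.log_div hx0.ne' (by norm_num)]
    ring
  have hlx4 : Real.log (4 * x) = Real.log x + Real.log 4 := by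
    rw [Real.log_mul (by norm_num) hx0.ne']
    ring
  have hlpos : 0 < Real.log (x / 2) := Real.log_pos (by linarith)
  have hlpos4 : 0 < Real.log (4 * x) := Real.log_pos (by linarith)
  have hlx0 : 0 < Real.log x := Real.log_pos (by linarith)
  rw [← hlx2] at hx2
  rw [← hlx4] at hx3
  -- cells
  have hcu : ∀ l, i ≤ l → l < j + 2 → C (gp D (l + 1)) - C (gp D l) ≤
      ((1 + δ) / Real.log (x / 2) ^ r) * ((gp D (l + 1) : ℝ) - gp D l) := by
    intro l hl hl'
    obtain ⟨h1, h2⟩ := hal l hl (by omega)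
    have h3 := (hl₀ l (by omega)).1
    have h4 : 0 < len D l := by
      unfold len
      have : (gp D l : ℝ) < gp D (l + 1) := by exact_mod_cast hlt l (by omega)
      linarith
    have h5 : Real.log (x / 2) ≤ Real.log (gp D l) := Real.log_le_log (by linarith) h1
    have h6 : 0 < Real.log (gp D l) ^ r := pow_pos (lt_of_lt_of_le hlpos h5) _
    rw [mul_div_assoc', div_le_iff₀ h4, ← le_div_iff₀ h6] at h3
    refine h3.trans ?_
    have h7 : Real.log (x / 2) ^ r ≤ Real.log (gp D l) ^ r := pow_le_pow_left₀ hlpos.le h5 r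
    rw [div_mul_eq_mul_div]
    exact div_le_div_of_nonneg_left (mul_nonneg (by linarith) h4.le) (by positivity) h7
  have hcl : ∀ l, i ≤ l → l < j + 2 → ((1 - δ) / Real.log (4 * x) ^ r) *
      ((gp D (l + 1) : ℝ) - gp D l) ≤ C (gp D (l + 1)) - C (gp D l) := by
    intro l hl hl'
    obtain ⟨h1, h2⟩ := hal l hl (by omega)
    have h3 := (hl₀ l (by omega)).2
    have h4 : 0 < len D l := by
      unfold len
      have : (gp D l : ℝ) < gp D (l + 1) := by exact_mod_cast hlt l (by omega)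
      linarith
    have h5 : Real.log (x / 2) ≤ Real.log (gp D l) := Real.log_le_log (by linarith) h1
    have h5' : Real.log (gp D l) ≤ Real.log (4 * x) := Real.log_le_log (by linarith) h2
    have h6 : 0 < Real.log (gp D l) ^ r := pow_pos (lt_of_lt_of_le hlpos h5) _
    rw [mul_div_assoc', le_div_iff₀ h4, ← div_le_iff₀ h6] at h3
    refine le_trans ?_ h3
    have h7 : Real.log (gp D l) ^ r ≤ Real.log (4 * x) ^ r :=
      pow_le_pow_left₀ (hlpos.le.trans h5) h5' r
    rw [div_mul_eq_mul_div]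
    exact div_le_div_of_nonneg_left (mul_nonneg (by linarith) h4.le) h6 h7
  -- upper bound
  have U : (C (⌊x + y⌋₊ + 1) - C (⌊x⌋₊ + 1)) * Real.log x ^ r / y ≤ 1 + ε := by
    have h1 : C (⌊x + y⌋₊ + 1) ≤ C (gp D (j + 2)) := hC (by
      have := hlt (j + 1) (by omega)
      have h2 : j + 1 + 1 = j + 2 := rfl
      rw [h2] at this
      omega)
    have h2 : C (gp D i) ≤ C (⌊x⌋₊ + 1) := hC (by omega)
    have h3 := telescope_le C (a := gp D) (i := i) (j := j + 2) (by omega) hcu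
    have h4 : (gp D (j + 2) : ℝ) - gp D i ≤ (1 + δ) * y := by linarith
    have h5 : 0 ≤ (1 + δ) / Real.log (x / 2) ^ r := by positivity
    have h6 : C (⌊x + y⌋₊ + 1) - C (⌊x⌋₊ + 1) ≤ (1 + δ) / Real.log (x / 2) ^ r * ((1 + δ) * y) := by
      have := mul_le_mul_of_nonneg_left h4 h5
      linarith
    calc (C (⌊x + y⌋₊ + 1) - C (⌊x⌋₊ + 1)) * Real.log x ^ r / y
        ≤ ((1 + δ) / Real.log (x / 2) ^ r * ((1 + δ) * y)) * Real.log x ^ r / y := by
          gcongr
      _ = (1 + δ) ^ 2 * (Real.log x / Real.log (x / 2)) ^ r := by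
          rw [div_pow]
          field_simp
      _ ≤ (1 + δ) ^ 2 * (1 + δ) := mul_le_mul_of_nonneg_left hx2 (by positivity)
      _ = (1 + δ) ^ 3 := by ring
      _ ≤ 1 + ε := hδu
  -- lower bound
  have L : 1 - ε ≤ (C (⌊x + y⌋₊ + 1) - C (⌊x⌋₊ + 1)) * Real.log x ^ r / y := by
    have h1 : C (gp D j) ≤ C (⌊x + y⌋₊ + 1) := hC (by omega)
    have h2 : C (⌊x⌋₊ + 1) ≤ C (gp D (i + 2)) := hC (by
      have := hlt (i + 1) (by omega)
      have h2 : i + 1 + 1 = i + 2 := rfl
      rw [h2] at this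
      omega)
    have h4 : (1 - δ) * y ≤ (gp D j : ℝ) - gp D (i + 2) := by linarith
    have h7 : i + 2 ≤ j := by
      by_contra hc
      have h8 : gp D j ≤ gp D (i + 2) := hmono (by omega)
      have h9 : (gp D j : ℝ) ≤ gp D (i + 2) := by exact_mod_cast h8
      have : 0 < (1 - δ) * y := mul_pos (by linarith) hy0
      linarith
    have h3 := telescope_ge C (a := gp D) (i := i + 2) (j := j) h7
      (fun l hl hl' => hcl l (by omega) (by omega))
    have h5 : 0 ≤ (1 - δ) / Real.log (4 * x) ^ r := div_nonneg (by linarith) (by positivity)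
    have h6 : (1 - δ) / Real.log (4 * x) ^ r * ((1 - δ) * y) ≤ C (⌊x + y⌋₊ + 1) - C (⌊x⌋₊ + 1) := by
      have := mul_le_mul_of_nonneg_left h4 h5
      linarith
    calc 1 - ε ≤ (1 - δ) ^ 3 := hδl
      _ = (1 - δ) ^ 2 * (1 - δ) := by ring
      _ ≤ (1 - δ) ^ 2 * (Real.log x / Real.log (4 * x)) ^ r :=
          mul_le_mul_of_nonneg_left hx3 (by positivity)
      _ = ((1 - δ) / Real.log (4 * x) ^ r * ((1 - δ) * y)) * Real.log x ^ r / y := by
          rw [div_pow]
          field_simp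
      _ ≤ _ := by gcongr
  rw [abs_le]
  constructor <;> linarith

end Q167.CT
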