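import Pool.Agent.Q167.CTc

/-! # Patterns in short intervals and twin pairs between cubes -/

set_option autoImplicit false

namespace Q167.CT

open Finset MeasureTheory Filter Topology Asymptotics Q198.CI

/-- the asymptotic formula for translates of `h` in all intervals `(x, x + y]` with
`x ^ θ ≤ y ≤ x` -/
def ShortFormula {Ω : Type} (E : ℕ → Set Ω) (ω : Ω) (h : Finset ℕ) (θ : ℝ) : Prop :=
  ∀ ε : ℝ, 0 < ε → ∀ᶠ x : ℝ in atTop, ∀ y : ℝ, x ^ θ ≤ y → y ≤ x →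
    |(({n : ℕ | x < n ∧ (n : ℝ) ≤ x + y ∧ ∀ a ∈ h, ω ∈ E (n + a)}.ncard : ℕ) : ℝ) *
      Real.log x ^ h.card / y - 1| ≤ ε

lemma count_eq {Ω : Type} (E : ℕ → Set Ω) (ω : Ω) (h : Finset ℕ) {x y : ℝ} (hx : 0 ≤ x)
    (hy : 0 ≤ y) :
    (({n : ℕ | x < n ∧ (n : ℝ) ≤ x + y ∧ ∀ a ∈ h, ω ∈ E (n + a)}.ncard : ℕ) : ℝ) =
      CC E h ω (⌊x + y⌋₊ + 1) - CC E h ω (⌊x⌋₊ + 1) := by
  classical
  have hle : ⌊x⌋₊ + 1 ≤ ⌊x + y⌋₊ + 1 := by
    have := Nat.floor_le_floor (show x ≤ x + y by linarith)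
    omega
  rw [CC_sub E h ω hle]
  have h1 : {n : ℕ | x < n ∧ (n : ℝ) ≤ x + y ∧ ∀ a ∈ h, ω ∈ E (n + a)} =
      ((Ico (⌊x⌋₊ + 1) (⌊x + y⌋₊ + 1)).filter (fun n => ω ∈ Tup E h n) : Finset ℕ) := by
    ext n
    simp only [Set.mem_ofPred_eq, coe_filter, mem_Ico, mem_Tup]
    rw [Nat.lt_succ_iff, Nat.le_floor_iff (by linarith), Nat.succ_le_iff, Nat.floor_lt hx]
    tauto
  rw [h1, Set.ncard_coe_finset, card_filter]
  push_cast
  refine sum_congr rfl fun n _ => ?_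
  by_cases hn : ω ∈ Tup E h n <;> simp [hn]

lemma exp_choice {m : ℕ} (hm : 0 < m) {θ : ℝ} (hθ : 1 / ((m : ℝ) + 1) < θ) :
    ∃ j : ℕ, 1 - 1 / (1 + 1 / (m : ℝ) + 1 / ((j : ℝ) + 1)) < θ := by
  have hm' : (0:ℝ) < m := by exact_mod_cast hm
  have h1 : Tendsto (fun j : ℕ => 1 - 1 / (1 + 1 / (m : ℝ) + 1 / ((j : ℝ) + 1))) atTop
      (𝓝 (1 - 1 / (1 + 1 / (m : ℝ) + 0))) := by
    have h2 := (tendsto_one_div_add_atTop_nhds_zero_nat (𝕜 := ℝ)).const_add (1 + 1 / (m : ℝ))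
    have h3 := h2.inv₀ (by positivity)
    have h4 := h3.const_sub 1
    simpa only [one_div] using h4
  have h5 : (1 - 1 / (1 + 1 / (m : ℝ) + 0)) = 1 / ((m : ℝ) + 1) := by
    field_simp
    ring
  rw [h5] at h1
  obtain ⟨j, hj⟩ := (h1.eventually_lt_const hθ).exists
  exact ⟨j, hj⟩

/-- order `2 m k` suffices for all exponents above `1 / (m + 1)` -/
theorem short_one {Ω : Type} [MeasurableSpace Ω] {P : Measure Ω} [IsProbabilityMeasure P]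
    {κ : ℕ → ℕ} {E : ℕ → Set Ω} (hM : Model P κ E) {h : Finset ℕ} {m : ℕ} (hm : 0 < m)
    (hκ : ∀ᶠ n in atTop, 2 * m * h.card ≤ κ n) :
    ∀ᵐ ω ∂P, ∀ θ : ℝ, 1 / ((m : ℝ) + 1) < θ → ShortFormula E ω h θ := by
  have h1 : ∀ᵐ ω ∂P, ∀ j : ℕ, Tendsto (fun n : ℕ =>
      (CC E h ω (gp (1 + 1 / (m : ℝ) + 1 / ((j : ℝ) + 1)) (n + 1)) -
        CC E h ω (gp (1 + 1 / (m : ℝ) + 1 / ((j : ℝ) + 1)) n)) *
      (Real.log (gp (1 + 1 / (m : ℝ) + 1 / ((j : ℝ) + 1)) n) ^ h.card /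
        len (1 + 1 / (m : ℝ) + 1 / ((j : ℝ) + 1)) n)) atTop (𝓝 1) := by
    rw [ae_all_iff]
    intro j
    apply cells hM hm hκ
    have : 0 < 1 / ((j : ℝ) + 1) := by positivity
    linarith
  filter_upwards [h1] with ω hω θ hθ
  obtain ⟨j, hj⟩ := exp_choice hm hθ
  have hm' : (0:ℝ) < m := by exact_mod_cast hm
  have hD : 1 < 1 + 1 / (m : ℝ) + 1 / ((j : ℝ) + 1) := by
    have h2 : 0 < 1 / ((j : ℝ) + 1) := by positivity
    have h3 : 0 < 1 / (m : ℝ) := by positivity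
    linarith
  intro ε hε
  have h2 := short (CC_mono E h ω) hD h.card (hω j) hj hε
  filter_upwards [h2, eventually_ge_atTop 0] with x hx hx0 y hy1 hy2
  have hy0 : 0 ≤ y := (Real.rpow_nonneg hx0 _).trans hy1
  rw [count_eq E ω h hx0 hy0]
  exact hx y hy1 hy2

theorem short_all {Ω : Type} [MeasurableSpace Ω] {P : Measure Ω} [IsProbabilityMeasure P]
    {κ : ℕ → ℕ} {E : ℕ → Set Ω} (hM : Model P κ E) {k m : ℕ} (hm : 0 < m)
    (hκ : ∀ᶠ n in atTop, 2 * m * k ≤ κ n) :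
    ∀ᵐ ω ∂P, ∀ h : Finset ℕ, h.card ≤ k → ∀ θ : ℝ, 1 / ((m : ℝ) + 1) < θ →
      ShortFormula E ω h θ := by
  rw [ae_all_iff]
  intro h
  by_cases hc : h.card ≤ k
  · have h1 : ∀ᶠ n in atTop, 2 * m * h.card ≤ κ n := by
      filter_upwards [hκ] with n hn
      exact (Nat.mul_le_mul_left _ hc).trans hn
    filter_upwards [short_one hM hm h1] with ω hω _
    exact hω
  · exact ae_of_all _ fun ω h2 => absurd h2 hc

lemma infinite_of_short {Ω : Type} {E : ℕ → Set Ω} {ω : Ω} {h : Finset ℕ}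
    (H : ShortFormula E ω h 1) : {n : ℕ | ∀ a ∈ h, ω ∈ E (n + a)}.Infinite := by
  intro hfin
  obtain ⟨N, hN⟩ := hfin.bddAbove
  obtain ⟨x, hx1, hx2⟩ := ((H (1 / 2) (by norm_num)).and
    (eventually_ge_atTop (N + 1 : ℝ))).exists
  have h1 := hx1 x (by rw [Real.rpow_one]) le_rfl
  have h2 : {n : ℕ | x < n ∧ (n : ℝ) ≤ x + x ∧ ∀ a ∈ h, ω ∈ E (n + a)} = ∅ := by
    rw [Set.eq_empty_iff_forall_notMem]
    rintro n ⟨h3, -, h4⟩
    have h5 : n ≤ N := hN h4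
    have h6 : (n : ℝ) ≤ N := by exact_mod_cast h5
    linarith
  rw [h2, Set.ncard_empty] at h1
  norm_num at h1

/-- number of twin pairs of the random set strictly between two consecutive cubes -/
noncomputable def TT {Ω : Type} (E : ℕ → Set Ω) (ω : Ω) (n : ℕ) : ℕ :=
  {p : ℕ | ω ∈ E p ∧ ω ∈ E (p + 2) ∧ n ^ 3 < p ∧ p + 2 < (n + 1) ^ 3}.ncard

lemma TT_eq {Ω : Type} (E : ℕ → Set Ω) (ω : Ω) (n : ℕ) :
    TT E ω n = {p : ℕ | ((n : ℝ) ^ 3) < p ∧ (p : ℝ) ≤ (n : ℝ) ^ 3 + (3 * (n : ℝ) ^ 2 + 3 * n - 2) ∧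
      ∀ a ∈ ({0, 2} : Finset ℕ), ω ∈ E (p + a)}.ncard := by
  unfold TT
  congr 1
  ext p
  simp only [Set.mem_ofPred_eq, mem_insert, mem_singleton, forall_eq_or_imp, forall_eq, add_zero]
  have h1 : ((n : ℝ) ^ 3) < p ↔ n ^ 3 < p := by
    rw [← Nat.cast_pow]
    exact Nat.cast_lt
  have h2 : (p : ℝ) ≤ (n : ℝ) ^ 3 + (3 * (n : ℝ) ^ 2 + 3 * n - 2) ↔ p + 2 < (n + 1) ^ 3 := by
    have h3 : (p + 2 < (n + 1) ^ 3) ↔ p + 2 ≤ n ^ 3 + 3 * n ^ 2 + 3 * n := by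
      have : (n + 1) ^ 3 = n ^ 3 + 3 * n ^ 2 + 3 * n + 1 := by ring
      rw [this]
      omega
    rw [h3, ← Nat.cast_le (α := ℝ)]
    push_cast
    constructor <;> intro h <;> linarith
  rw [h1, h2]
  tauto

lemma TT_asymp {Ω : Type} {E : ℕ → Set Ω} {ω : Ω}
    (h : ShortFormula E ω {0, 2} (3 / 5)) :
    Tendsto (fun n : ℕ => (TT E ω n : ℝ) * (3 * Real.log n ^ 2 / (n : ℝ) ^ 2)) atTop (𝓝 1) := by
  have hy : Tendsto (fun n : ℕ => (3 * (n : ℝ) ^ 2 + 3 * n - 2) / (3 * (n : ℝ) ^ 2)) atTop (𝓝 1) := by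
    have h1 : Tendsto (fun n : ℕ => 1 + (1 / (n : ℝ) - (2 / 3) * (1 / (n : ℝ)) ^ 2)) atTop
        (𝓝 (1 + (0 - (2 / 3) * 0 ^ 2))) := by
      have h2 := tendsto_one_div_atTop_nhds_zero_nat (𝕜 := ℝ)
      exact (h2.sub ((h2.pow 2).const_mul _)).const_add 1
    rw [show (1 : ℝ) + (0 - (2 / 3) * 0 ^ 2) = 1 by norm_num] at h1
    refine h1.congr' ?_
    filter_upwards [eventually_gt_atTop 0] with n hn
    have hn0 : (0:ℝ) < n := by exact_mod_cast hn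
    field_simp
    ring
  have hcube : Tendsto (fun n : ℕ => ((n : ℝ) ^ 3)) atTop atTop :=
    (tendsto_pow_atTop (by norm_num)).comp tendsto_natCast_atTop_atTop
  have hT : Tendsto (fun n : ℕ => (TT E ω n : ℝ) * Real.log ((n : ℝ) ^ 3) ^ 2 /
      (3 * (n : ℝ) ^ 2 + 3 * n - 2)) atTop (𝓝 1) := by
    rw [Metric.tendsto_atTop']
    intro ε hε
    obtain ⟨N, hN⟩ := eventually_atTop.1 ((hcube.eventually (h (ε / 2) (by positivity))).and
      (eventually_ge_atTop 5))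
    refine ⟨N, fun n hn => ?_⟩
    obtain ⟨h1, h2⟩ := hN n hn.le
    have hn0 : (5:ℝ) ≤ n := by exact_mod_cast h2
    have h3 := h1 (3 * (n : ℝ) ^ 2 + 3 * n - 2) (by
      have e1 : ((n : ℝ) ^ 3) ^ (3 / 5 : ℝ) = (n : ℝ) ^ (9 / 5 : ℝ) := by
        rw [← Real.rpow_natCast, ← Real.rpow_mul (by linarith)]
        norm_num
      have e2 : (n : ℝ) ^ (9 / 5 : ℝ) ≤ (n : ℝ) ^ 2 := by
        rw [← Real.rpow_natCast]
        exact Real.rpow_le_rpow_of_exponent_le (by linarith) (by norm_num)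
      rw [e1]
      nlinarith) (by nlinarith)
    rw [TT_eq E ω n, Real.dist_eq]
    have hc : ({0, 2} : Finset ℕ).card = 2 := rfl
    rw [hc] at h3
    linarith
  have h4 := hT.mul hy
  rw [one_mul] at h4
  refine h4.congr' ?_
  filter_upwards [eventually_ge_atTop 5] with n hn
  have hn0 : (5:ℝ) ≤ n := by exact_mod_cast hn
  have hpos : 0 < 3 * (n : ℝ) ^ 2 + 3 * n - 2 := by nlinarith
  rw [Real.log_pow]
  push_cast
  generalize 3 * (n : ℝ) ^ 2 + 3 * n - 2 = Y at hpos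
  have hn1 : (n : ℝ) ≠ 0 := by linarith
  have hY : Y ≠ 0 := hpos.ne'
  field_simp

lemma TT_atTop {Ω : Type} {E : ℕ → Set Ω} {ω : Ω}
    (h : Tendsto (fun n : ℕ => (TT E ω n : ℝ) * (3 * Real.log n ^ 2 / (n : ℝ) ^ 2)) atTop (𝓝 1)) :
    Tendsto (TT E ω) atTop atTop := by
  rw [← tendsto_natCast_atTop_iff (R := ℝ)]
  have h1 : Tendsto (fun n : ℕ => 3 * Real.log n ^ 2 / (n : ℝ) ^ 2) atTop (𝓝[>] 0) := by
    rw [tendsto_nhdsWithin_iff]
    constructor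
    · have h2 : (fun x : ℝ => Real.log x ^ ((2 : ℕ) : ℝ)) =o[atTop] fun x : ℝ => x ^ (2 : ℝ) :=
        isLittleO_log_rpow_rpow_atTop _ (by norm_num)
      have h3 := ((h2.comp_tendsto tendsto_natCast_atTop_atTop).tendsto_div_nhds_zero).const_mul 3
      rw [mul_zero] at h3
      refine h3.congr fun n => ?_
      simp only [Function.comp_apply, Real.rpow_natCast]
      rw [show ((2:ℝ)) = ((2:ℕ):ℝ) by norm_num, Real.rpow_natCast]
      push_cast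
      ring
    · filter_upwards [eventually_ge_atTop 2] with n hn
      have hn0 : (0:ℝ) < n := by exact_mod_cast (by omega : 0 < n)
      have hl : 0 < Real.log n := Real.log_pos (by exact_mod_cast (by omega : 1 < n))
      rw [Set.mem_Ioi]
      positivity
  have h2 := h.pos_mul_atTop one_pos h1.inv_tendsto_nhdsGT_zero
  refine h2.congr' ?_
  filter_upwards [eventually_ge_atTop 2] with n hn
  have hn0 : (0:ℝ) < n := by exact_mod_cast (by omega : 0 < n)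
  have hl : 0 < Real.log n := Real.log_pos (by exact_mod_cast (by omega : 1 < n))
  rw [Pi.inv_apply]
  field_simp

/-- order 4 suffices for twin pairs between cubes -/
theorem cubes_four {Ω : Type} [MeasurableSpace Ω] {P : Measure Ω} [IsProbabilityMeasure P]
    {κ : ℕ → ℕ} {E : ℕ → Set Ω} (hM : Model P κ E) (hκ : ∀ᶠ n in atTop, 4 ≤ κ n) :
    ∀ᵐ ω ∂P, Tendsto (fun n : ℕ => (TT E ω n : ℝ) * (3 * Real.log n ^ 2 / (n : ℝ) ^ 2)) atTop
      (𝓝 1) := by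
  filter_upwards [short_all hM (k := 2) (m := 1) one_pos (by simpa using hκ)] with ω hω
  exact TT_asymp (hω {0, 2} (by decide) (3 / 5) (by norm_num))

lemma TT_zero {Ω : Type} {E : ℕ → Set Ω} {ω : Ω}
    (h : {n : ℕ | ∀ a ∈ ({0, 2} : Finset ℕ), ω ∈ E (n + a)}.Finite) :
    ∀ᶠ n in atTop, TT E ω n = 0 := by
  obtain ⟨N, hN⟩ := h.bddAbove
  filter_upwards [eventually_ge_atTop (N + 1)] with n hn
  unfold TT
  have h1 : {p : ℕ | ω ∈ E p ∧ ω ∈ E (p + 2) ∧ n ^ 3 < p ∧ p + 2 < (n + 1) ^ 3} = ∅ := by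
    rw [Set.eq_empty_iff_forall_notMem]
    rintro p ⟨h1, h2, h3, -⟩
    have h4 : p ≤ N := hN (by
      simp only [Set.mem_ofPred_eq, mem_insert, mem_singleton, forall_eq_or_imp, forall_eq,
        add_zero]
      exact ⟨h1, h2⟩)
    have h5 : n ≤ n ^ 3 := Nat.le_self_pow (by norm_num) n
    omega
  rw [h1, Set.ncard_empty]

theorem no_cubes : ∃ (Ω : Type) (_ : MeasurableSpace Ω) (P : Measure Ω)
    (_ : IsProbabilityMeasure P) (E : ℕ → Set Ω), Model P (fun _ => 3) E ∧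
      ∀ᵐ ω ∂P, ∀ᶠ n in atTop, TT E ω n = 0 := by
  obtain ⟨Ω, mΩ, P, hP, E, hM, hE⟩ := no_tuples (k := 2) (by norm_num)
  refine ⟨Ω, mΩ, P, hP, E, hM, ?_⟩
  filter_upwards [hE] with ω hω
  exact TT_zero (hω {0, 2} (by decide))

theorem of_frequently {κ : ℕ → ℕ} (hmono : Monotone κ)
    (h : ∀ (Ω : Type) (_ : MeasurableSpace Ω) (P : Measure Ω) (_ : IsProbabilityMeasure P)
        (E : ℕ → Set Ω), Model P κ E → ∀ᵐ ω ∂P, ∃ᶠ n in atTop, 1 ≤ TT E ω n) :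
    ∀ᶠ n in atTop, 4 ≤ κ n := by
  by_contra hc
  have h4 : ∀ n, κ n ≤ 3 := by
    intro n
    by_contra h5
    apply hc
    filter_upwards [eventually_ge_atTop n] with n' hn'
    have := hmono hn'
    omega
  obtain ⟨Ω, mΩ, P, hP, E, hM, hE⟩ := no_cubes
  have h5 := h Ω mΩ P hP E (hM.mono h4)
  have h6 : ∀ᵐ _ω ∂P, False := by
    filter_upwards [hE, h5] with ω h7 h8
    obtain ⟨n, h9, h10⟩ := (h8.and_eventually h7).exists
    omega
  rw [ae_iff] at h6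
  simp at h6

end Q167.CT
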