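import Pool.Agent.Q273.CH.Diag
import Pool.Agent.H426R3.SQ.Lin2

/-! # Record gaps around `n` and `n²` for all terms of sparse sequences -/

set_option autoImplicit false

namespace Q167.SW

open Set Filter Topology
open scoped ENNReal NNReal
open Pool.Agent.Q273.CH

/-- no prime is at a distance at most `H` from `m` or from `m ^ 2` -/
def NS (H : ℝ) (m : ℕ) : Prop :=
  ∀ q : ℕ, q.Prime → H < |(q : ℝ) - m| ∧ H < |(q : ℝ) - (m : ℝ) ^ 2|

lemma NS.mono {H H' : ℝ} {m : ℕ} (h : NS H m) (hH : H' ≤ H) : NS H' m := fun q hq =>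
  ⟨lt_of_le_of_lt hH (h q hq).1, lt_of_le_of_lt hH (h q hq).2⟩

theorem windows (θ : ℝ) (h0 : 0 < θ) (h1 : θ ≤ 1) : ∃ c : ℝ, 0 < c ∧
    ∀ᶠ R : ℝ in atTop, ∀ w : ℝ, R + 1 ≤ w → ∃ n : ℕ, w ≤ n ∧ (n : ℝ) ≤ w + R ^ θ ∧
      NS (c * f R) n := by
  obtain ⟨c, hc, Y₀, h⟩ := Pool.Agent.H426R3.SQ.number_square_main
  refine ⟨c * (θ / 8), by positivity, ?_⟩
  have hs := tendsto_rpow_atTop h0
  filter_upwards [hs.eventually_ge_atTop Y₀, f_rpow h0 h1, eventually_ge_atTop (1 : ℝ)]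
    with R hR1 hR2 hR3 w hw
  have hR0 : 0 < R := by linarith
  have hw0 : 0 ≤ w := by linarith
  have hle : R ^ θ ≤ R := by
    calc R ^ θ ≤ R ^ (1:ℝ) := Real.rpow_le_rpow_of_exponent_le hR3 h1
      _ = R := Real.rpow_one R
  have hfl : (⌊w⌋₊ : ℝ) ≤ w := Nat.floor_le hw0
  have hfl2 : w < ⌊w⌋₊ + 1 := Nat.lt_floor_add_one w
  obtain ⟨m, hm1, hm2, hm3⟩ := h (R ^ θ) hR1 ⌊w⌋₊ (by linarith)
  have hm1' : (⌊w⌋₊ : ℝ) + 1 ≤ m := by exact_mod_cast hm1
  refine ⟨m, by linarith, by linarith, fun q hq => ?_⟩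
  have h2 := hm3 q hq
  have h3 : c * (θ / 8) * f R ≤ c * Pool.Agent.H426R3.SQ.ff (R ^ θ) := by
    rw [mul_assoc]
    exact mul_le_mul_of_nonneg_left hR2.1 hc.le
  exact ⟨lt_of_le_of_lt h3 h2.1, lt_of_le_of_lt h3 h2.2⟩

lemma x_tendsto (x : ℕ → ℝ) (hx : ∀ n, 0 < x n)
    (hR : Tendsto (fun n => x (n + 1) / x n) atTop atTop) : Tendsto x atTop atTop := by
  obtain ⟨n1, hn1⟩ := eventually_atTop.1 (hR.eventually_ge_atTop 2)
  have hx1 : ∀ k, x n1 * 2 ^ k ≤ x (n1 + k) := by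
    intro k
    induction k with
    | zero => simp
    | succ k ih =>
      have h2 := hn1 (n1 + k) (by omega)
      rw [le_div_iff₀ (hx _)] at h2
      rw [show n1 + (k + 1) = n1 + k + 1 by ring, pow_succ]
      linarith
  have h2 : Tendsto (fun k : ℕ => x n1 * 2 ^ k) atTop atTop :=
    (tendsto_pow_atTop_atTop_of_one_lt (by norm_num)).const_mul_atTop (hx n1)
  have h3 : Tendsto (fun k : ℕ => x (k + n1)) atTop atTop := by
    apply tendsto_atTop_mono _ h2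
    intro k
    rw [add_comm k n1]
    exact hx1 k
  exact (tendsto_add_atTop_iff_nat n1).1 h3

theorem core (ε : ℝ) (h0 : 0 < ε) (h1 : ε < 1) : ∃ c : ℝ, 0 < c ∧
    ∀ x : ℕ → ℝ, (∀ n, 0 < x n) → Tendsto (fun n => x (n + 1) / x n) atTop atTop →
    ∀ u v : ℝ, 0 < u → u < v → ENNReal.ofReal (1 - ε) ≤
      dimH {α : ℝ | u < α ∧ α < v ∧ ∀ᶠ n in atTop, NS (c * f (x (n + 1) / x n))
        ⌊α * x (n + 1)⌋₊} := by
  obtain ⟨c, hc, hw⟩ := windows (ε / 2) (by positivity) (by linarith)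
  refine ⟨c, hc, fun x hx hR u v hu huv => ?_⟩
  have hxt := x_tendsto x hx hR
  refine dil_gen ε h0 h1 x hx hR (fun n => {y : ℝ | NS (c * f (x (n + 1) / x n)) ⌊y⌋₊}) u v hu huv ?_
  have h16 : ∀ᶠ n in atTop, 1 ≤ (x (n + 1) / x n) ^ (ε / 2) :=
    hR.eventually ((tendsto_rpow_atTop (by positivity)).eventually_ge_atTop 1)
  filter_upwards [hR.eventually hw, h16, hR.eventually_ge_atTop 1,
    (hxt.const_mul_atTop hu).eventually_ge_atTop 2] with n h2 h3 h4 h5 w hw'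
  have hxn := hx n
  have h6 : x (n + 1) / x n + 1 ≤ w := by
    have e1 : u * x (n + 1) = (x (n + 1) / x n) * (u * x n) := by field_simp
    have e2 : (x (n + 1) / x n) * 2 ≤ (x (n + 1) / x n) * (u * x n) :=
      mul_le_mul_of_nonneg_left h5 (by linarith)
    linarith
  obtain ⟨m, hm1, hm2, hm3⟩ := h2 w h6
  refine ⟨m, hm1, by linarith, fun y hy => ?_⟩
  have h7 : ⌊y⌋₊ = m := by
    rw [Nat.floor_eq_iff (le_trans (Nat.cast_nonneg m) hy.1)]
    exact ⟨hy.1, by linarith [hy.2]⟩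
  show NS _ ⌊y⌋₊
  rw [h7]
  exact hm3

theorem one (x : ℕ → ℝ) (hx : ∀ n, 0 < x n)
    (hR : Tendsto (fun n => x (n + 1) / x n) atTop atTop) (u v : ℝ) (hu : 0 < u) (huv : u < v) :
      dimH {α : ℝ | u < α ∧ α < v ∧ ∃ c : ℝ, 0 < c ∧ ∀ᶠ n in atTop,
        NS (c * f (x (n + 1) / x n)) ⌊α * x (n + 1)⌋₊} = 1 := by
  apply le_antisymm
  · calc dimH _ ≤ dimH (univ : Set ℝ) := dimH_mono (subset_univ _)
      _ = 1 := Real.dimH_univ
  · apply le_of_forall_lt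
    intro y hy
    obtain ⟨z, hz1, hz2⟩ := exists_between hy
    have hzt : z ≠ ∞ := (hz2.trans_le le_top).ne
    lift z to ℝ≥0 using hzt
    have hz0 : 0 < z := by
      have := lt_of_le_of_lt zero_le hz1
      exact_mod_cast this
    have hz3 : (z : ℝ) < 1 := by exact_mod_cast hz2
    have hz4 : (0 : ℝ) < z := by exact_mod_cast hz0
    obtain ⟨c, hc, h⟩ := core (1 - z) (by linarith) (by linarith)
    have h2 := h x hx hR u v hu huv
    have h3 : ENNReal.ofReal (1 - (1 - (z : ℝ))) = z := by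
      rw [sub_sub_cancel]
      exact ENNReal.ofReal_coe_nnreal
    rw [h3] at h2
    refine lt_of_lt_of_le hz1 (h2.trans (dimH_mono ?_))
    rintro α ⟨h4, h5, h6⟩
    exact ⟨h4, h5, c, hc, h6⟩

theorem record (δ : ℝ) (hδ : 0 < δ) (x : ℕ → ℝ) (hx : ∀ n, 0 < x n) (hxt : Tendsto x atTop atTop)
    (hR : ∀ᶠ n in atTop, (x n) ^ (1 + δ) ≤ x (n + 1)) (u v : ℝ)
    (hu : 0 < u) (huv : u < v) :
      dimH {α : ℝ | u < α ∧ α < v ∧ ∃ c : ℝ, 0 < c ∧ ∀ᶠ n in atTop,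
        NS (c * f (x n)) ⌊α * x n⌋₊} = 1 := by
  have hδ' : 0 < 1 + δ := by linarith
  have hxt1 : Tendsto (fun n => x (n + 1)) atTop atTop := (tendsto_add_atTop_iff_nat 1).2 hxt
  have h1 : ∀ᶠ n in atTop, (x (n + 1)) ^ (δ / (1 + δ)) ≤ x (n + 1) / x n := by
    filter_upwards [hR] with n hn
    rw [le_div_iff₀ (hx n)]
    have h2 : x n ≤ (x (n + 1)) ^ (1 / (1 + δ)) := by
      have h3 := Real.rpow_le_rpow (Real.rpow_nonneg (hx n).le _) hn
        (show 0 ≤ 1 / (1 + δ) by positivity)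
      rw [← Real.rpow_mul (hx n).le, mul_one_div_cancel hδ'.ne', Real.rpow_one] at h3
      exact h3
    calc (x (n + 1)) ^ (δ / (1 + δ)) * x n ≤ (x (n + 1)) ^ (δ / (1 + δ)) * (x (n + 1)) ^ (1 / (1 + δ)) :=
          mul_le_mul_of_nonneg_left h2 (Real.rpow_nonneg (hx _).le _)
      _ = x (n + 1) := by
          rw [← Real.rpow_add (hx _), ← add_div, add_comm δ 1, div_self hδ'.ne', Real.rpow_one]
  have hθ0 : 0 < δ / (1 + δ) := by positivity
  have hθ1 : δ / (1 + δ) ≤ 1 := by rw [div_le_one hδ']; linarith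
  have hR' : Tendsto (fun n => x (n + 1) / x n) atTop atTop :=
    tendsto_atTop_mono' _ h1 ((tendsto_rpow_atTop hθ0).comp hxt1)
  have h2 := one x hx hR' u v hu huv
  apply le_antisymm
  · calc dimH _ ≤ dimH (univ : Set ℝ) := dimH_mono (subset_univ _)
      _ = 1 := Real.dimH_univ
  · rw [← h2]
    apply dimH_mono
    rintro α ⟨h4, h5, c, hc, h6⟩
    refine ⟨h4, h5, c * (δ / (1 + δ) / 8), by positivity, ?_⟩
    have h7 := (hxt1.eventually (f_ge hθ0 hθ1)).and (h1.and (h6.and (hxt.eventually_ge_atTop 1)))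
    obtain ⟨N, hN⟩ := eventually_atTop.1 h7
    rw [eventually_atTop]
    refine ⟨N + 1, fun n hn => ?_⟩
    obtain ⟨m, rfl⟩ := Nat.exists_eq_add_of_le' (show 1 ≤ n by omega)
    obtain ⟨h8, h9, h10, h11⟩ := hN m (by omega)
    refine h10.mono ?_
    have h12 := h8.1 (x (m + 1) / x m) h9 (by
      rw [div_le_iff₀ (hx m)]
      have := hx (m + 1)
      nlinarith)
    calc c * (δ / (1 + δ) / 8) * f (x (m + 1)) = c * (δ / (1 + δ) / 8 * f (x (m + 1))) := by ring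
      _ ≤ _ := mul_le_mul_of_nonneg_left h12 hc.le

end Q167.SW
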